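import Pool.Agent.FHQ.StmtsO

/-!
# Squad FHQ, row BXC: colourings of the points of a grid
-/

set_option autoImplicit false

namespace Pool.Agent.FHQ.H94

open Pool.Agent.FHQ

theorem bxc (pr : PrStmt) : BxcStmt := by
  intro D n' C _
  obtain ⟨n, hn⟩ := pr D (n' + 1) C
  refine ⟨n, fun col => ?_⟩
  obtain ⟨s, hs, c, hc⟩ := hn fun a _ => col a
  refine ⟨fun j a => s j (Fin.castSucc a), fun j a b hab => hs j (Fin.castSucc_lt_castSucc_iff.2 hab),
    c, fun η => ?_⟩
  exact hc (fun j => Fin.castSucc (η j)) (fun _ => Fin.last n') fun j => Fin.castSucc_lt_last _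

end Pool.Agent.FHQ.H94
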