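import Pool.Agent.FHQ.StmtsO

/-!
# Squad FHQ, row CHN: the points are close
-/

set_option autoImplicit false

namespace Pool.Agent.FHQ.H94

open Pool.Agent.FHQ

theorem chn (bal : BalStmt) : ChnStmt := by
  intro p _ K _ A D n I V P x γ hG hM
  classical
  obtain ⟨-, -, b3, b4, b5, -, -⟩ := bal p K A.toAcF0
  have hb : ∀ i η, x η ∈ A.ball (P i η).c (γ η) := by
    intro i η
    by_cases hi : i ∈ I
    · right
      exact (hG.eq i hi η).2.ge
    · rcases hG.gt i hi η with h | h
      · left
        exact h
      · right
        exact h.le
  have single : ∀ (i : Fin D) (η η' : Fin D → Fin n), (∀ j, j ≠ i → η j = η' j) →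
      x η' ∈ A.ball (x η) (min (γ η) (γ η')) := by
    intro i η η' h
    have h1 : x η ∈ A.ball (P i η).c (min (γ η) (γ η')) := b5 _ _ _ (min_le_left _ _) (hb i η)
    have h2 : x η' ∈ A.ball (P i η).c (min (γ η) (γ η')) := by
      rw [hG.ind i η η' h]
      exact b5 _ _ _ (min_le_right _ _) (hb i η')
    rw [b4 _ _ _ h1]
    exact h2
  have symm : ∀ η η' : Fin D → Fin n, x η' ∈ A.ball (x η) (min (γ η) (γ η')) →
      x η ∈ A.ball (x η') (min (γ η') (γ η)) := by
    intro η η' h
    rw [min_comm, b4 _ _ _ h]
    exact b3 _ _
  have key : ∀ (k : ℕ) (η η' : Fin D → Fin n),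
      (Finset.univ.filter fun j => η j ≠ η' j).card = k →
      x η' ∈ A.ball (x η) (min (γ η) (γ η')) := by
    intro k
    induction k with
    | zero =>
      intro η η' h
      rw [Finset.card_eq_zero, Finset.filter_eq_empty_iff] at h
      have : η = η' := funext fun j => by
        by_contra hj
        exact h (Finset.mem_univ j) hj
      rw [this]
      exact b3 _ _
    | succ k ih =>
      -- the case of a good coordinate
      have good : ∀ (η η' : Fin D → Fin n),
          (Finset.univ.filter fun j => η j ≠ η' j).card = k + 1 →
          ∀ j, η j ≠ η' j → (j ∈ V → η j < η' j) →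
          x η' ∈ A.ball (x η) (min (γ η) (γ η')) := by
        intro η η' hk j hj hjV
        have h1 : ∀ i, i ≠ j → η i = Function.update η j (η' j) i := fun i hi => by
          rw [Function.update_of_ne hi]
        have h2 : γ η ≤ γ (Function.update η j (η' j)) := by
          by_cases hV : j ∈ V
          · exact (hM.up j hV _ _ h1 (by rw [Function.update_self]; exact hjV hV)).le
          · refine le_of_eq (hM.out _ _ fun i hi => h1 i ?_)
            rintro rfl
            exact hV hi
        have h3 := single j η _ h1
        rw [min_eq_left h2] at h3
        have h4 := ih (Function.update η j (η' j)) η' (by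
          have e : (Finset.univ.filter fun i => Function.update η j (η' j) i ≠ η' i) =
              (Finset.univ.filter fun i => η i ≠ η' i).erase j := by
            ext i
            rw [Finset.mem_erase, Finset.mem_filter, Finset.mem_filter]
            by_cases hi : i = j
            · subst hi
              simp
            · rw [Function.update_of_ne hi]
              simp [hi]
          rw [e, Finset.card_erase_of_mem (by simp [hj]), hk]
          rfl)
        have h5 : x (Function.update η j (η' j)) ∈ A.ball (x η) (min (γ η) (γ η')) :=
          b5 _ _ _ (min_le_left _ _) h3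
        have h6 : x η' ∈ A.ball (x (Function.update η j (η' j))) (min (γ η) (γ η')) :=
          b5 _ _ _ (min_le_min h2 le_rfl) h4
        rw [← b4 _ _ _ h5]
        exact h6
      intro η η' hk
      have hne : (Finset.univ.filter fun j => η j ≠ η' j).Nonempty := by
        rw [← Finset.card_pos, hk]
        omega
      obtain ⟨j, hj⟩ := hne
      have hj' : η j ≠ η' j := (Finset.mem_filter.1 hj).2
      rcases lt_or_gt_of_ne hj' with h | h
      · exact good η η' hk j hj' fun _ => h
      · apply symm
        refine good η' η ?_ j hj'.symm fun _ => h
        rw [← hk]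
        congr 1
        ext i
        simp [ne_comm]
  intro η η'
  exact key _ η η' rfl

end Pool.Agent.FHQ.H94
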